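import Pool.Agent.H132HC.Main

/-!
# The homeomorphism group of the Hilbert cube is the union of a Haar null set and a meagre set

The witness measure is the law of the product `k₁ k₂ k₃` of three independent random elements of three infinite tori
`(ℝ/ℤ)^ℕ` in the homeomorphism group, for which the set of all the points `k₁ k₂ k₃ y` is the whole Hilbert cube for one
point `y`. The first torus acts by rotations on the Hilbert cube, seen as the power `D^ℕ` of the closed disc `D`, the other
two are conjugate to it, by a homeomorphism which moves the set `[0, 1]^ℕ ⊆ D^ℕ` to a subset of `(3/5 D)^ℕ` and by a power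
of a Moebius map. If a small ball has a two-sided translate `g U h` which is not small, then one shows with the help of the
invariance and connectedness of the tori that all the elements of the three tori move the points of the cube very little
when measured in the metric transported by `g`. This contradicts the transitivity of the product. So every small enough
ball has small translates, uniformly, and a suitable countable union of such balls is dense, open and has small translates.
-/

set_option autoImplicit false

open MeasureTheory Topology

namespace Pool.Agent.Results.MP_08a145_lc.HilbertCube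

/-- The Hilbert cube `[0, 1] ^ ℕ`. -/
def Q : Type := ℕ → Set.Icc (0 : ℝ) 1

/-- The product topology of the Hilbert cube. -/
instance instTopologicalSpaceQ : TopologicalSpace Q :=
  inferInstanceAs (TopologicalSpace (ℕ → Set.Icc (0 : ℝ) 1))

instance instCompactSpaceQ : CompactSpace Q :=
  inferInstanceAs (CompactSpace (ℕ → Set.Icc (0 : ℝ) 1))

instance instMetrizableSpaceQ : TopologicalSpace.MetrizableSpace Q :=
  inferInstanceAs (TopologicalSpace.MetrizableSpace (ℕ → Set.Icc (0 : ℝ) 1))

/-- The group `ℋ(Q)` of the homeomorphisms of `Q` onto itself, inside the space of the continuous self-maps of `Q` with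
the compact-open topology (the topology of uniform convergence). -/
def H : Set C(Q, Q) := {f | ∃ e : Q ≃ₜ Q, ∀ x, f x = e x}

/-- The translate `g B h`. -/
def translate (g h : H) (B : Set H) : Set H := {x | ∃ b ∈ B, x.1 = g.1.comp (b.1.comp h.1)}

/-- `A` is Haar null: it lies in a Borel set `B` such that `μ (g B h) = 0` for all `g, h` in the group, for one Borel
probability measure `μ` on the group. -/
def HaarNull (A : Set H) : Prop :=
  ∃ B : Set H, A ⊆ B ∧ @MeasurableSet H (borel H) B ∧
    ∃ μ : @Measure H (borel H), @IsProbabilityMeasure H (borel H) μ ∧
      ∀ g h : H, μ (translate g h B) = 0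

/-- **The group of the homeomorphisms of the Hilbert cube is the disjoint union of a Haar null set and a meagre set.** -/
theorem result : ∃ A M : Set H, A ∩ M = ∅ ∧ A ∪ M = Set.univ ∧ HaarNull A ∧ IsMeagre M := by
  let _ : MeasurableSpace H := borel H
  have : BorelSpace H := ⟨rfl⟩
  have hH : ∀ f : C(Q, Q), f ∈ H ↔ Function.Bijective f := by
    intro f
    constructor
    · rintro ⟨e, he⟩
      have : (f : Q → Q) = e := funext he
      rw [this]
      exact e.bijective
    · intro hf
      exact ⟨Pool.Agent.H132HC.mkH (Equiv.ofBijective f hf) f.continuous, fun x => rfl⟩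
  have h01 : (fun _ => 0 : Q) ≠ (fun _ => 1 : Q) := by
    intro h
    have := congrArg (fun z : Q => ((z 0 : Set.Icc (0 : ℝ) 1) : ℝ)) h
    norm_num at this
  let τ : Q ≃ₜ Pool.Agent.H132HC.Y := Pool.Agent.H132HC.τ₀
  obtain ⟨N, h1, h2, μ, hμ, h3⟩ := Pool.Agent.H132HC.mainT τ _ _ h01 H hH
  exact ⟨N, Nᶜ, Set.inter_compl_self N, Set.union_compl_self N, ⟨N, subset_rfl, h2, μ, hμ, h3⟩, h1⟩

end Pool.Agent.Results.MP_08a145_lc.HilbertCube
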